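import Mathlib
import Pool.Agent.Helper45.MalcevMain
import Pool.Agent.Helper111.EN.NS

/-! Virtually nilpotent groups: the maximal condition, the Ore condition and the finite family lemma. -/

namespace Pool.Agent.H814Z.Mal

open Subgroup Pool.Agent.Helper45 Pool.Agent.Helper111.EN.NSc
open scoped commutatorElement

universe u v

theorem exists_normal {G : Type u} [Group G] (h : Group.IsVirtuallyNilpotent G) :
    ∃ N : Subgroup G, N.Normal ∧ N.FiniteIndex ∧ Group.IsNilpotent N := by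
  obtain ⟨K, hnil, hK⟩ := h
  haveI : K.normalCore.FiniteIndex := inferInstance
  haveI : Group.IsNilpotent (K.normalCore.subgroupOf K) := inferInstance
  exact ⟨K.normalCore, inferInstance, inferInstance,
    Group.nilpotent_of_mulEquiv (Subgroup.subgroupOfEquivOfLe K.normalCore_le)⟩

theorem vn_prod {G : Type u} {H : Type v} [Group G] [Group H] (hG : Group.IsVirtuallyNilpotent G)
    (hH : Group.IsVirtuallyNilpotent H) : Group.IsVirtuallyNilpotent (G × H) := by
  obtain ⟨K, h1, h2⟩ := hG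
  obtain ⟨L, h3, h4⟩ := hH
  refine ⟨K.prod L, Group.nilpotent_of_mulEquiv (Subgroup.prodEquiv K L).symm, ?_⟩
  constructor
  rw [Subgroup.index_prod]
  exact mul_ne_zero Subgroup.FiniteIndex.index_ne_zero Subgroup.FiniteIndex.index_ne_zero

theorem NS_of_vn {G : Type u} [Group G] (h : Group.IsVirtuallyNilpotent G) (H : Subgroup G) (hH : H.FG) :
    NS H := by
  obtain ⟨N, h1, h2, h3⟩ := exists_normal h
  apply NS_ext (QuotientGroup.mk' N) H
  · intro K _
    haveI : Finite (G ⧸ N) := Subgroup.finite_quotient_of_finiteIndex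
    exact (Group.fg_iff_subgroup_fg K).1 inferInstance
  · rw [QuotientGroup.ker_mk']
    apply NS_of_nilpotent_fg
    · haveI : Group.IsNilpotent ((H ⊓ N).subgroupOf N) := inferInstance
      exact Group.nilpotent_of_mulEquiv (Subgroup.subgroupOfEquivOfLe (inf_le_right : H ⊓ N ≤ N))
    · haveI : Group.FG H := (Group.fg_iff_subgroup_fg H).2 hH
      haveI : (N.subgroupOf H).FiniteIndex := inferInstance
      have h4 : Group.FG (N.subgroupOf H) := inferInstance
      have h5 := (fg_map_subtype_iff H _).2 ((Group.fg_iff_subgroup_fg _).1 h4)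
      rwa [Subgroup.subgroupOf_map_subtype, inf_comm] at h5

theorem FR_of_vn {G : Type u} [Group G] (h : Group.IsVirtuallyNilpotent G) : FR G := by
  obtain ⟨K, h1, h2⟩ := h
  have h3 : FR (FreeGroup Empty × G) := FR_prod _ G ⟨⊤, inferInstance, inferInstance⟩ ⟨K, h2, h1⟩
  intro n a
  have h4 := h3 n (MonoidHom.inr (FreeGroup Empty) G ∘ a)
  have h5 : Rel (MonoidHom.inr (FreeGroup Empty) G ∘ a) = Rel a := by
    ext r
    constructor
    · rintro ⟨u, v, hu, hv, huv, rfl⟩
      rw [val_comp, val_comp] at huv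
      exact ⟨u, v, hu, hv, congrArg Prod.snd huv, rfl⟩
    · rintro ⟨u, v, hu, hv, huv, rfl⟩
      exact ⟨u, v, hu, hv, by rw [val_comp, val_comp, huv], rfl⟩
  unfold FinRel at *
  rwa [h5] at h4

/-- The Ore condition. -/
theorem ore {G : Type u} [Group G] (h : Group.IsVirtuallyNilpotent G) {A : Type v} (a : A → G)
    (u v : List A) : ∃ p q : List A, val a (u ++ p) = val a (v ++ q) := by
  obtain ⟨N, h1, h2, h3⟩ := exists_normal h
  obtain ⟨m, hm⟩ := exists_completion a N u
  obtain ⟨m', hm'⟩ := exists_completion a N v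
  have key : ∀ k : ℕ, ∃ p q : List A, val a (u ++ p) ∈ N ∧ val a (v ++ q) ∈ N ∧
      val a (u ++ p) * (val a (v ++ q))⁻¹ ∈ N.lowerCentralSeries k := by
    intro k
    induction k with
    | zero =>
      refine ⟨m, m', by simpa using hm, by simpa using hm', ?_⟩
      rw [Subgroup.lowerCentralSeries_zero]
      exact N.mul_mem (by simpa using hm) (N.inv_mem (by simpa using hm'))
    | succ k ih =>
      obtain ⟨p, q, hp, hq, hpq⟩ := ih
      refine ⟨p ++ (v ++ q), q ++ (u ++ p), ?_, ?_, ?_⟩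
      · rw [← List.append_assoc, val_append]; exact N.mul_mem hp hq
      · rw [← List.append_assoc, val_append]; exact N.mul_mem hq hp
      · rw [← List.append_assoc u, ← List.append_assoc v, val_append a (u ++ p), val_append a (v ++ q),
          Subgroup.lowerCentralSeries_succ]
        have e : val a (u ++ p) * val a (v ++ q) * (val a (v ++ q) * val a (u ++ p))⁻¹ =
            ⁅val a (u ++ p) * (val a (v ++ q))⁻¹, val a (v ++ q)⁆ := by
          rw [commutatorElement_def]; group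
        rw [e]
        exact Subgroup.commutator_mem_commutator hpq hq
  obtain ⟨c, hc⟩ := (Subgroup.isNilpotent_iff_lowerCentralSeries N).1 h3
  obtain ⟨p, q, -, -, h4⟩ := key c
  rw [hc, Subgroup.mem_bot, mul_inv_eq_one] at h4
  exact ⟨p, q, h4⟩

theorem ker_le {G : Type u} [Group G] (h : Group.IsVirtuallyNilpotent G) {A : Type v} (a : A → G) :
    (FreeGroup.lift a).ker ≤ normalClosure (Rel a) := by
  set N := normalClosure (Rel a) with hN
  let π : FreeGroup A →* FreeGroup A ⧸ N := QuotientGroup.mk' N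
  have hπ : ∀ u v : List A, val a u = val a v → π (pos u) = π (pos v) := by
    intro u v huv
    have h1 : π (pos u * (pos v)⁻¹) = 1 := (QuotientGroup.eq_one_iff _).2 (mem_of_val_eq a huv)
    rwa [map_mul, map_inv, mul_inv_eq_one] at h1
  have key : ∀ w : FreeGroup A, ∃ u v : List A, π w = π (pos u) * (π (pos v))⁻¹ := by
    intro w
    induction w using FreeGroup.induction_on with
    | C1 => exact ⟨[], [], by simp⟩
    | of x => exact ⟨[x], [], by simp⟩
    | inv_of x _ => exact ⟨[], [x], by simp⟩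
    | mul x y hx hy =>
      obtain ⟨u, v, hx⟩ := hx
      obtain ⟨u', v', hy⟩ := hy
      obtain ⟨p, q, hpq⟩ := ore h a v u'
      have h1 := hπ _ _ hpq
      rw [pos_append, pos_append, map_mul, map_mul] at h1
      refine ⟨u ++ p, v' ++ q, ?_⟩
      rw [map_mul, hx, hy, pos_append, pos_append, map_mul, map_mul]
      have h2 : π (pos p) = (π (pos v))⁻¹ * (π (pos u') * π (pos q)) := by
        rw [← h1]; group
      rw [h2]
      group
  intro w hw
  obtain ⟨u, v, huv⟩ := key w
  have h1 : w⁻¹ * (pos u * (pos v)⁻¹) ∈ N := by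
    rw [← QuotientGroup.eq]
    show π w = π _
    rw [huv, map_mul, map_inv]
  have h2 : N ≤ (FreeGroup.lift a).ker := by
    apply normalClosure_le_normal
    rintro r ⟨u, v, -, -, huv, rfl⟩
    show FreeGroup.lift a _ = 1
    rw [map_mul, map_inv, lift_pos, lift_pos, huv, mul_inv_cancel]
  have h3 := h2 h1
  rw [MonoidHom.mem_ker] at h3 hw
  rw [map_mul, map_inv, hw, inv_one, one_mul, map_mul, map_inv, lift_pos, lift_pos, mul_inv_eq_one] at h3
  have h4 : π w = 1 := by rw [huv, hπ u v h3, mul_inv_cancel]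
  exact (QuotientGroup.eq_one_iff _).1 h4

theorem exists_finite_of_mem_closure {G : Type u} [Group G] {S : Set G} {x : G} (hx : x ∈ closure S) :
    ∃ S₀ ⊆ S, S₀.Finite ∧ x ∈ closure S₀ := by
  induction hx using Subgroup.closure_induction with
  | mem y hy => exact ⟨{y}, by simpa using hy, Set.finite_singleton y, subset_closure rfl⟩
  | one => exact ⟨∅, Set.empty_subset _, Set.finite_empty, one_mem _⟩
  | mul y z _ _ hy hz =>
    obtain ⟨R₁, h1, f1, m1⟩ := hy
    obtain ⟨R₂, h2, f2, m2⟩ := hz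
    exact ⟨R₁ ∪ R₂, Set.union_subset h1 h2, f1.union f2,
      mul_mem (closure_mono Set.subset_union_left m1) (closure_mono Set.subset_union_right m2)⟩
  | inv y _ hy =>
    obtain ⟨R₁, h1, f1, m1⟩ := hy
    exact ⟨R₁, h1, f1, inv_mem m1⟩

theorem exists_finite_of_fg {G : Type u} [Group G] {S : Set G} (h : (closure S).FG) :
    ∃ S₀ ⊆ S, S₀.Finite ∧ closure S ≤ closure S₀ := by
  obtain ⟨T, hT⟩ := h
  have h1 : ∀ t : T, ∃ S₀ ⊆ S, S₀.Finite ∧ (t : G) ∈ closure S₀ := fun t =>
    exists_finite_of_mem_closure (by rw [← hT]; exact subset_closure t.2)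
  choose f hf1 hf2 hf3 using h1
  refine ⟨⋃ t, f t, Set.iUnion_subset hf1, Set.finite_iUnion hf2, ?_⟩
  rw [← hT, closure_le]
  intro t ht
  exact closure_mono (Set.subset_iUnion f ⟨t, ht⟩) (hf3 ⟨t, ht⟩)

/-- The finite family lemma. -/
theorem family {G : Type u} [Group G] (h : Group.IsVirtuallyNilpotent G) {n : ℕ} (a : Fin n → G)
    (X : Set (List (Fin n) × List (Fin n))) :
    ∃ X₀ ⊆ X, X₀.Finite ∧ ∀ (K : Type) [Group K] (θ : FreeGroup (Fin n) →* K),
      (FreeGroup.lift a).ker ≤ θ.ker → ∀ γ δ : K,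
        (∀ p ∈ X₀, θ (pos p.1) * γ * (θ (pos p.2))⁻¹ = δ) →
          ∀ p ∈ X, θ (pos p.1) * γ * (θ (pos p.2))⁻¹ = δ := by
  rcases X.eq_empty_or_nonempty with rfl | ⟨p₀, hp₀⟩
  · exact ⟨∅, subset_rfl, Set.finite_empty, fun K _ θ _ γ δ h => h⟩
  let Y : List (Fin n) × List (Fin n) → FreeGroup (Fin n) × FreeGroup (Fin n) :=
    fun p => ((pos p₀.1)⁻¹ * pos p.1, (pos p₀.2)⁻¹ * pos p.2)
  let Λ : FreeGroup (Fin n) × FreeGroup (Fin n) →* G × G := (FreeGroup.lift a).prodMap (FreeGroup.lift a)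
  have hfg : (closure ((fun p => Λ (Y p)) '' X)).FG := by
    have h1 : Λ.range.FG := (Group.fg_iff_subgroup_fg _).1 inferInstance
    apply NS_of_vn (vn_prod h h) _ h1
    rw [closure_le]
    rintro _ ⟨p, -, rfl⟩
    exact ⟨Y p, rfl⟩
  obtain ⟨S₀, h1, h2, h3⟩ := exists_finite_of_fg hfg
  obtain ⟨X₁, h4, h5, rfl⟩ := h2.exists_subset_finite_image_eq h1
  refine ⟨insert p₀ X₁, Set.insert_subset hp₀ h4, h5.insert _, ?_⟩
  intro K _ θ hθ γ δ hX p hp
  let P : Subgroup (FreeGroup (Fin n) × FreeGroup (Fin n)) :=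
    { carrier := {w | θ w.1 * γ = γ * θ w.2}
      mul_mem' := by
        intro x y hx hy
        simp only [Set.mem_ofPred_eq, Prod.fst_mul, Prod.snd_mul, map_mul] at *
        rw [mul_assoc, hy, ← mul_assoc, hx, mul_assoc]
      one_mem' := by simp
      inv_mem' := by
        intro x hx
        simp only [Set.mem_ofPred_eq, Prod.fst_inv, Prod.snd_inv, map_inv] at *
        rw [inv_mul_eq_iff_eq_mul, ← mul_assoc, hx]
        group }
  have hP : ∀ w, w ∈ P ↔ θ w.1 * γ = γ * θ w.2 := fun w => Iff.rfl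
  have h0 := hX p₀ (Set.mem_insert _ _)
  have hiff : ∀ q, Y q ∈ P ↔ θ (pos q.1) * γ * (θ (pos q.2))⁻¹ = δ := by
    intro q
    rw [hP, ← h0]
    simp only [Y, map_mul, map_inv]
    constructor
    · intro h6
      calc θ (pos q.1) * γ * (θ (pos q.2))⁻¹
          = θ (pos p₀.1) * ((θ (pos p₀.1))⁻¹ * θ (pos q.1) * γ) * (θ (pos q.2))⁻¹ := by group
        _ = _ := by rw [h6]; group
    · intro h6
      calc (θ (pos p₀.1))⁻¹ * θ (pos q.1) * γ
          = (θ (pos p₀.1))⁻¹ * (θ (pos q.1) * γ * (θ (pos q.2))⁻¹) * θ (pos q.2) := by group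
        _ = _ := by rw [h6]; group
  rw [← hiff]
  have h6 : Λ (Y p) ∈ closure ((fun p => Λ (Y p)) '' X₁) := h3 (subset_closure ⟨p, hp, rfl⟩)
  have h7 : closure ((fun p => Λ (Y p)) '' X₁) ≤ P.map Λ := by
    rw [closure_le]
    rintro _ ⟨q, hq, rfl⟩
    exact ⟨Y q, (hiff q).2 (hX q (Set.mem_insert_of_mem _ hq)), rfl⟩
  obtain ⟨w, hw, hw2⟩ := h7 h6
  have h8 : w⁻¹ * Y p ∈ P := by
    have h9 : Λ (w⁻¹ * Y p) = 1 := by rw [map_mul, map_inv, hw2, inv_mul_cancel]
    have h10 : θ (w⁻¹ * Y p).1 = 1 := hθ (congrArg Prod.fst h9)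
    have h11 : θ (w⁻¹ * Y p).2 = 1 := hθ (congrArg Prod.snd h9)
    rw [hP, h10, h11, one_mul, mul_one]
  have := P.mul_mem hw h8
  rwa [mul_inv_cancel_left] at this

end Pool.Agent.H814Z.Mal
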