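import Mathlib
import Pool.Agent.Helper45.MalcevNegB
import Pool.Agent.H814Z.Mal.Nil

/-! Finite families in the free product of the free monoid on one letter and a virtually nilpotent group have
finitely based positive relations. -/

namespace Pool.Agent.H814Z.Mal

open Subgroup Monoid Pool.Agent.Helper45

universe u

variable {G : Type u} [Group G]

/-- The free product. -/
abbrev PP (G : Type u) [Group G] := Coprod (FreeMonoid Unit) G

/-- The free letter. -/
def zz : PP G := Coprod.inl (FreeMonoid.of ())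

/-- The normal form. -/
def nf (p : PP G) : List G := evL G p [1]

theorem nf_inj {p q : PP G} (h : nf p = nf q) : p = q := evL_injective h

theorem nf_ne (p : PP G) : nf p ≠ [] := evL_ne_nil p [1] (by simp)

theorem nf_inr (g : G) : nf (Coprod.inr g : PP G) = [g] := by
  unfold nf; rw [evL_inr, mul_one]

theorem nf_step (g : G) (m : PP G) : nf (Coprod.inr g * zz * m) = g :: nf m := by
  unfold nf zz
  rw [evL_mul, evL_mul, evL_inl_of, evL_inr, mul_one]

theorem cases_P (p : PP G) : (∃ g : G, p = Coprod.inr g) ∨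
    ∃ (g : G) (m : PP G), p = Coprod.inr g * zz * m := by
  induction p using coprod_ind with
  | h1 => exact Or.inl ⟨1, by simp⟩
  | hx q _ => exact Or.inr ⟨1, q, by simp [zz]⟩
  | hm m q ih =>
    rcases ih with ⟨g, rfl⟩ | ⟨g, r, rfl⟩
    · exact Or.inl ⟨m * g, by simp⟩
    · exact Or.inr ⟨m * g, r, by simp [mul_assoc]⟩

theorem evL_suffix (p : PP G) : ∀ (h : G) (t : List G), ∃ h' l, evL G p (h :: t) = h' :: l ∧ t <:+ l := by
  induction p using coprod_ind with
  | h1 => intro h t; exact ⟨h, t, evL_one _, List.suffix_refl _⟩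
  | hx q ih =>
    intro h t
    obtain ⟨h', l, h1, h2⟩ := ih h t
    exact ⟨1, h' :: l, by rw [evL_mul, h1, evL_inl_of], h2.trans (List.suffix_cons _ _)⟩
  | hm m q ih =>
    intro h t
    obtain ⟨h', l, h1, h2⟩ := ih h t
    exact ⟨m * h', l, by rw [evL_mul, h1, evL_inr], h2⟩

theorem nf_suffix (w m : PP G) : nf m <:+ nf (w * zz * m) := by
  have h1 : nf (w * zz * m) = evL G w (1 :: nf m) := by
    unfold nf zz
    rw [evL_mul, evL_mul, evL_inl_of]
  obtain ⟨h', l, h2, h3⟩ := evL_suffix w 1 (nf m)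
  rw [h1, h2]
  exact h3.trans (List.suffix_cons _ _)

section family

variable {n : ℕ} (a : Fin n → PP G)

/-- The value of a word. -/
def mv (l : List (Fin n)) : PP G := (l.map a).prod

@[simp] theorem mv_nil : mv a [] = 1 := rfl
@[simp] theorem mv_cons (i : Fin n) (l : List (Fin n)) : mv a (i :: l) = a i * mv a l := by simp [mv]
@[simp] theorem mv_append (l m : List (Fin n)) : mv a (l ++ m) = mv a l * mv a m := by simp [mv]

theorem val_emb (l : List (Fin n)) : val (embG G ∘ a) l = embG G (mv a l) := by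
  induction l with
  | nil => simp
  | cons i l ih => simp [ih]

/-- Letters with value in `G`. -/
def IsG (i : Fin n) : Prop := ∃ g : G, a i = Coprod.inr g

open Classical in
/-- Their values. -/
noncomputable def a0 (i : Fin n) : G := if h : IsG a i then h.choose else 1

theorem a0_spec {i : Fin n} (h : IsG a i) : a i = Coprod.inr (a0 a i) := by
  unfold a0
  rw [dif_pos h]
  exact h.choose_spec

theorem a0_not {i : Fin n} (h : ¬ IsG a i) : a0 a i = 1 := by
  unfold a0
  rw [dif_neg h]

open Classical in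
/-- The endomorphism killing the other letters. -/
noncomputable def th : FreeGroup (Fin n) →* FreeGroup (Fin n) :=
  FreeGroup.lift (fun i => if IsG a i then FreeGroup.of i else 1)

theorem th_pos {t : List (Fin n)} (h : ∀ i ∈ t, IsG a i) : th a (pos t) = pos t := by
  induction t with
  | nil => simp
  | cons i t ih =>
    rw [pos_cons, map_mul, ih (fun j hj => h j (List.mem_cons_of_mem _ hj))]
    congr 1
    unfold th
    rw [FreeGroup.lift_apply_of, if_pos (h i (by simp))]

theorem mv_G {t : List (Fin n)} (h : ∀ i ∈ t, IsG a i) : mv a t = Coprod.inr (val (a0 a) t) := by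
  induction t with
  | nil => simp
  | cons i t ih =>
    rw [mv_cons, val_cons, map_mul, ih (fun j hj => h j (List.mem_cons_of_mem _ hj)),
      ← a0_spec a (h i (by simp))]

theorem th_pos' (t : List (Fin n)) :
    ∃ t' : List (Fin n), th a (pos t) = pos t' ∧ mv a t' = Coprod.inr (val (a0 a) t) := by
  induction t with
  | nil => exact ⟨[], by simp, by simp⟩
  | cons i t ih =>
    obtain ⟨t', h1, h2⟩ := ih
    by_cases h : IsG a i
    · refine ⟨i :: t', ?_, ?_⟩
      · rw [pos_cons, map_mul, h1, pos_cons]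
        congr 1
        unfold th
        rw [FreeGroup.lift_apply_of, if_pos h]
      · rw [mv_cons, h2, val_cons, map_mul, ← a0_spec a h]
    · refine ⟨t', ?_, ?_⟩
      · rw [pos_cons, map_mul, h1]
        have : th a (FreeGroup.of i) = 1 := by
          unfold th
          rw [FreeGroup.lift_apply_of, if_neg h]
        rw [this, one_mul]
      · rw [h2, val_cons, a0_not a h, one_mul]

/-- Suffixes of generators. -/
def Suf : Set (PP G) := {m | m = 1 ∨ ∃ i w, a i = w * zz * m}

theorem Suf_finite : (Suf a).Finite := by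
  have h1 : Suf a ⊆ {1} ∪ ⋃ i, nf ⁻¹' {l | l ∈ (nf (a i)).tails} := by
    rintro m (rfl | ⟨i, w, h⟩)
    · exact Or.inl rfl
    · refine Or.inr (Set.mem_iUnion.2 ⟨i, ?_⟩)
      show nf m ∈ (nf (a i)).tails
      rw [List.mem_tails, h]
      exact nf_suffix w m
  refine Set.Finite.subset ((Set.finite_singleton _).union (Set.finite_iUnion (fun i => ?_))) h1
  exact Set.Finite.preimage (fun x _ y _ h => nf_inj h) (List.finite_toSet _)

theorem split_list (s : List (Fin n)) : (∀ i ∈ s, IsG a i) ∨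
    ∃ t i s₁, (∀ j ∈ t, IsG a j) ∧ ¬ IsG a i ∧ s = t ++ i :: s₁ := by
  induction s with
  | nil => exact Or.inl (by simp)
  | cons i s ih =>
    by_cases h : IsG a i
    · rcases ih with ih | ⟨t, j, s₁, h1, h2, rfl⟩
      · refine Or.inl ?_
        intro j hj
        rcases List.mem_cons.1 hj with rfl | hj
        · exact h
        · exact ih j hj
      · refine Or.inr ⟨i :: t, j, s₁, ?_, h2, rfl⟩
        intro k hk
        rcases List.mem_cons.1 hk with rfl | hk
        · exact h
        · exact h1 k hk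
    · exact Or.inr ⟨[], i, s, by simp, h, rfl⟩

theorem dec {ρ : PP G} (hρ : ρ ∈ Suf a) (s : List (Fin n)) :
    ((∀ i ∈ s, IsG a i) ∧ ∃ g : G, ρ * mv a s = Coprod.inr g) ∨
    ∃ (t : List (Fin n)) (o : Option (Fin n)) (s₁ : List (Fin n)) (ρ₁ : PP G) (g : G),
      (∀ j ∈ t, IsG a j) ∧ s = t ++ o.toList ++ s₁ ∧ ρ₁ ∈ Suf a ∧
        ρ * mv a (t ++ o.toList) = Coprod.inr g * zz * ρ₁ := by
  rcases cases_P ρ with ⟨g, rfl⟩ | ⟨g, m, rfl⟩
  · rcases split_list a s with h | ⟨t, i, s₁, h1, h2, rfl⟩
    · exact Or.inl ⟨h, g * val (a0 a) s, by rw [mv_G a h, map_mul]⟩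
    · rcases cases_P (a i) with h3 | ⟨h, m, h3⟩
      · exact absurd h3 h2
      · refine Or.inr ⟨t, some i, s₁, m, g * val (a0 a) t * h, h1, by simp, Or.inr ⟨i, _, h3⟩, ?_⟩
        rw [mv_append, mv_G a h1]
        simp [h3, mul_assoc]
  · refine Or.inr ⟨[], none, s, m, g, by simp, by simp, ?_, by simp⟩
    rcases hρ with h | ⟨i, w, h⟩
    · have h1 := congrArg nf h
      have h2 : nf (1 : PP G) = [1] := by rw [← nf_inr, map_one]
      rw [nf_step, h2] at h1
      exact absurd (List.cons.inj h1).2 (nf_ne m)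
    · exact Or.inr ⟨i, w * zz * Coprod.inr g, by rw [h]; simp [mul_assoc]⟩

/-- Reachable states. -/
def Reach (q : PP G × PP G) : Prop := ∃ u u' m, mv a u = m * q.1 ∧ mv a u' = m * q.2

/-- Completions of a state. -/
def Compl (q : PP G × PP G) (p : List (Fin n) × List (Fin n)) : Prop :=
  q.1 * mv a p.1 = q.2 * mv a p.2

open Classical in
/-- The element attached to a state. -/
noncomputable def dl (q : PP G × PP G) : FreeGroup (Fin n) :=
  if h : ∃ p, Compl a q p then pos h.choose.1 * (pos h.choose.2)⁻¹ else 1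

theorem dl_spec {q : PP G × PP G} (h : ∃ p, Compl a q p) :
    ∃ p, Compl a q p ∧ dl a q = pos p.1 * (pos p.2)⁻¹ := by
  refine ⟨h.choose, h.choose_spec, ?_⟩
  unfold dl
  rw [dif_pos h]

theorem mem_N {u v : List (Fin n)} (h : mv a u = mv a v) :
    pos u * (pos v)⁻¹ ∈ normalClosure (Rel (embG G ∘ a)) :=
  mem_of_val_eq _ (by rw [val_emb, val_emb, h])

theorem lemA {q : PP G × PP G} (hq : Reach a q) {p : List (Fin n) × List (Fin n)} (hp : Compl a q p) :
    pos p.1 * (pos p.2)⁻¹ * (dl a q)⁻¹ ∈ normalClosure (Rel (embG G ∘ a)) := by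
  obtain ⟨p', hp', h1⟩ := dl_spec a ⟨p, hp⟩
  obtain ⟨u, u', m, hu, hu'⟩ := hq
  have key : ∀ r, Compl a q r →
      (pos u)⁻¹ * (pos (u ++ r.1) * (pos (u' ++ r.2))⁻¹) * pos u ∈ normalClosure (Rel (embG G ∘ a)) := by
    intro r hr
    have h2 : mv a (u ++ r.1) = mv a (u' ++ r.2) := by
      rw [mv_append, mv_append, hu, hu', mul_assoc, mul_assoc, hr]
    have h3 := (inferInstance : (normalClosure (Rel (embG G ∘ a))).Normal).conj_mem _ (mem_N a h2) (pos u)⁻¹
    rwa [inv_inv] at h3
  have h4 := mul_mem (key p hp) (inv_mem (key p' hp'))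
  rw [h1]
  convert h4 using 1
  simp only [pos_append]
  group

/-- The index set of the families. -/
abbrev JJ := (Suf a × Suf a) × Option (Option (Fin n) × Option (Fin n) × (Suf a × Suf a))

/-- The families. -/
def XX : JJ a → Set (List (Fin n) × List (Fin n))
  | (q, none) => {p | Reach a (q.1, q.2) ∧ (∀ i ∈ p.1, IsG a i) ∧ (∀ i ∈ p.2, IsG a i) ∧
      Compl a (q.1, q.2) p}
  | (q, some (o, o', q₁)) => {p | Reach a (q.1, q.2) ∧ (∀ i ∈ p.1, IsG a i) ∧ (∀ i ∈ p.2, IsG a i) ∧
      (∃ r, Compl a (q₁.1, q₁.2) r) ∧ ∃ g : G,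
        (q.1 : PP G) * mv a (p.1 ++ o.toList) = Coprod.inr g * zz * (q₁.1 : PP G) ∧
        (q.2 : PP G) * mv a (p.2 ++ o'.toList) = Coprod.inr g * zz * (q₁.2 : PP G)}

/-- The middle elements. -/
noncomputable def ga : JJ a → FreeGroup (Fin n)
  | (_, none) => 1
  | (_, some (o, o', q₁)) => pos o.toList * dl a (q₁.1, q₁.2) * (pos o'.toList)⁻¹

theorem XX_valid (j : JJ a) (p : List (Fin n) × List (Fin n)) (hp : p ∈ XX a j) :
    th a (pos p.1) * ga a j * (th a (pos p.2))⁻¹ * (dl a (j.1.1, j.1.2))⁻¹ ∈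
      normalClosure (Rel (embG G ∘ a)) := by
  obtain ⟨q, _ | ⟨o, o', q₁⟩⟩ := j
  · obtain ⟨h1, h2, h3, h4⟩ := hp
    rw [th_pos a h2, th_pos a h3]
    simpa [ga] using lemA a h1 h4
  · obtain ⟨h1, h2, h3, h4, g, h5, h6⟩ := hp
    rw [th_pos a h2, th_pos a h3]
    obtain ⟨r, hr, h7⟩ := dl_spec a h4
    have h8 : Compl a (q.1, q.2) (p.1 ++ o.toList ++ r.1, p.2 ++ o'.toList ++ r.2) := by
      unfold Compl at *
      simp only at *
      rw [mv_append a (p.1 ++ o.toList), mv_append a (p.2 ++ o'.toList), ← mul_assoc, ← mul_assoc, h5, h6,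
        mul_assoc _ _ (mv a r.1), mul_assoc _ _ (mv a r.2), hr]
    have h9 := lemA a h1 h8
    convert h9 using 2
    simp only [ga, h7, pos_append]
    group

theorem finRel (hG : Group.IsVirtuallyNilpotent G) : FinRel (embG G ∘ a) := by
  classical
  haveI : Finite (Suf a) := Suf_finite a
  obtain ⟨E₀, hE1, hE2, hE3⟩ := FR_of_vn hG n (a0 a)
  have hfam := fun j : JJ a => family hG (a0 a) (XX a j)
  choose X₀ hX1 hX2 hX3 using hfam
  let E : Set (FreeGroup (Fin n)) := (th a '' E₀ ∪ {dl a (1, 1)}) ∪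
    ⋃ j : JJ a, (fun p : List (Fin n) × List (Fin n) =>
      th a (pos p.1) * ga a j * (th a (pos p.2))⁻¹ * (dl a (j.1.1, j.1.2))⁻¹) '' X₀ j
  have hR1 : Reach a (1, 1) := ⟨[], [], 1, by simp, by simp⟩
  apply finRel_of_finite _ E
  · exact ((hE1.image _).union (Set.finite_singleton _)).union
      (Set.finite_iUnion (fun j => (hX2 j).image _))
  · rintro r ((⟨e, he, rfl⟩ | rfl) | h)
    · obtain ⟨u, v, -, -, huv, rfl⟩ := hE2 he
      obtain ⟨u', h1, h2⟩ := th_pos' a u
      obtain ⟨v', h3, h4⟩ := th_pos' a v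
      rw [map_mul, map_inv, h1, h3]
      exact mem_N a (by rw [h2, h4, huv])
    · have h1 := lemA a hR1 (p := ([], [])) (by simp [Compl])
      simpa using inv_mem h1
    · obtain ⟨j, p, hp, rfl⟩ := Set.mem_iUnion.1 h
      exact XX_valid a j p (hX1 j hp)
  · let π : FreeGroup (Fin n) →* FreeGroup (Fin n) ⧸ normalClosure E := QuotientGroup.mk' _
    have hπ : ∀ r ∈ E, π r = 1 := fun r hr => (QuotientGroup.eq_one_iff _).2 (subset_normalClosure hr)
    have hker : (FreeGroup.lift (a0 a)).ker ≤ (π.comp (th a)).ker := by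
      refine (ker_le hG (a0 a)).trans (normalClosure_le_normal (hE3.trans ?_))
      apply normalClosure_le_normal
      intro e he
      exact hπ _ (Or.inl (Or.inl ⟨e, he, rfl⟩))
    have hall : ∀ j : JJ a, ∀ p ∈ XX a j,
        π (th a (pos p.1)) * π (ga a j) * (π (th a (pos p.2)))⁻¹ = π (dl a (j.1.1, j.1.2)) := by
      intro j
      refine hX3 j _ (π.comp (th a)) hker (π (ga a j)) (π (dl a (j.1.1, j.1.2))) ?_
      intro p hp
      have h1 := hπ _ (Or.inr (Set.mem_iUnion.2 ⟨j, p, hp, rfl⟩))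
      simp only [map_mul, map_inv] at h1
      exact mul_inv_eq_one.1 h1
    have key : ∀ L : ℕ, ∀ (q : Suf a × Suf a) (s s' : List (Fin n)), Reach a (q.1, q.2) →
        Compl a (q.1, q.2) (s, s') → (nf ((q.1 : PP G) * mv a s)).length ≤ L →
          π (pos s) * (π (pos s'))⁻¹ = π (dl a (q.1, q.2)) := by
      intro L
      induction L with
      | zero =>
        intro q s s' _ _ h
        exact absurd (List.eq_nil_of_length_eq_zero (by omega)) (nf_ne ((q.1 : PP G) * mv a s))
      | succ L ih =>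
        intro q s s' hq hc hL
        have hc' : (q.1 : PP G) * mv a s = (q.2 : PP G) * mv a s' := hc
        rcases dec a q.1.2 s with ⟨h1, g, h2⟩ | ⟨t, o, s₁, ρ₁, g, h1, rfl, h2, h3⟩
        · rcases dec a q.2.2 s' with ⟨h1', g', h2'⟩ | ⟨t', o', s₁', ρ₁', g', h1', rfl, h2', h3'⟩
          · have h4 := hall (q, none) (s, s') ⟨hq, h1, h1', hc⟩
            rw [th_pos a h1, th_pos a h1'] at h4
            simpa [ga] using h4
          · exfalso
            rw [h2, mv_append a (t' ++ o'.toList), ← mul_assoc, h3', mul_assoc _ ρ₁'] at hc'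
            have h4 := congrArg nf hc'
            rw [nf_inr, nf_step] at h4
            exact nf_ne _ (List.cons.inj h4).2.symm
        · rcases dec a q.2.2 s' with ⟨h1', g', h2'⟩ | ⟨t', o', s₁', ρ₁', g', h1', rfl, h2', h3'⟩
          · exfalso
            rw [h2', mv_append a (t ++ o.toList), ← mul_assoc, h3, mul_assoc _ ρ₁] at hc'
            have h4 := congrArg nf hc'
            rw [nf_inr, nf_step] at h4
            exact nf_ne _ (List.cons.inj h4).2
          · rw [mv_append a (t ++ o.toList), ← mul_assoc, h3, mul_assoc _ ρ₁] at hc' hL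
            rw [mv_append a (t' ++ o'.toList), ← mul_assoc (q.2 : PP G), h3', mul_assoc _ ρ₁'] at hc'
            have h4 := congrArg nf hc'
            rw [nf_step, nf_step] at h4
            obtain ⟨h5, h6⟩ := List.cons.inj h4
            subst h5
            have h7 : Compl a (ρ₁, ρ₁') (s₁, s₁') := nf_inj h6
            have h8 : Reach a (ρ₁, ρ₁') := by
              obtain ⟨u, u', m, hu, hu'⟩ := hq
              refine ⟨u ++ (t ++ o.toList), u' ++ (t' ++ o'.toList), m * (Coprod.inr g * zz), ?_, ?_⟩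
              · rw [mv_append a u, hu, mul_assoc m, h3, mul_assoc m]
              · rw [mv_append a u', hu', mul_assoc m, h3', mul_assoc m]
            rw [nf_step, List.length_cons] at hL
            have h9 := ih (⟨ρ₁, h2⟩, ⟨ρ₁', h2'⟩) s₁ s₁' h8 h7 (by simpa using hL)
            have h10 := hall (q, some (o, o', (⟨ρ₁, h2⟩, ⟨ρ₁', h2'⟩))) (t, t')
              ⟨hq, h1, h1', ⟨_, h7⟩, g, h3, h3'⟩
            rw [th_pos a h1, th_pos a h1'] at h10
            simp only [ga, map_mul, map_inv] at h10 h9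
            rw [← h10, ← h9]
            simp only [pos_append, map_mul]
            group
    rintro r ⟨u, v, -, -, huv, rfl⟩
    rw [val_emb, val_emb] at huv
    have h1 : mv a u = mv a v := embG_injective huv
    have h2 := key _ (⟨1, Or.inl rfl⟩, ⟨1, Or.inl rfl⟩) u v hR1 (by simp [Compl, h1]) le_rfl
    have h3 : π (dl a (1, 1)) = 1 := hπ _ (Or.inl (Or.inr rfl))
    have h4 : π (pos u * (pos v)⁻¹) = 1 := by
      rw [map_mul, map_inv, h2]
      exact h3
    exact (QuotientGroup.eq_one_iff _).1 h4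

end family

end Pool.Agent.H814Z.Mal
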