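import Mathlib
import Pool.Agent.H814Z.Mal.Main

/-! Arbitrary free monoids, and the passage to Malcev presentations. -/

namespace Pool.Agent.H814Z.Mal

open Subgroup Monoid Pool.Agent.Helper45

universe u v

theorem malcev_of_emb {M : Type u} [Monoid M] {Γ : Type v} [Group Γ] (f : M →* Γ)
    (hf : Function.Injective f) (h : ∀ (n : ℕ) (a : Fin n → M), FinRel (f ∘ a)) : MalcevCoherent M := by
  classical
  rintro S ⟨T, hT, rfl⟩
  haveI : Finite T := hT
  obtain ⟨n, ⟨e⟩⟩ := Finite.exists_equiv_fin T
  let a : Fin n → M := fun i => (e.symm i : T)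
  let ι : Fin n → Subsemigroup.closure T := fun i =>
    ⟨a i, Subsemigroup.subset_closure (e.symm i).2⟩
  have hι : ∀ w : FreeSemigroup (Fin n),
      f ((FreeSemigroup.lift ι w : Subsemigroup.closure T) : M) = FreeSemigroup.lift (f ∘ a) w := by
    intro w
    induction w using FreeSemigroup.recOnMul with
    | ih1 x => rfl
    | ih2 x y hx hy => rw [map_mul, map_mul, MulMemClass.coe_mul, map_mul, hx, hy]
  obtain ⟨E, hEf, hE1, hE2⟩ := h n a
  have hchoice : ∀ r : E, ∃ p : FreeSemigroup (Fin n) × FreeSemigroup (Fin n),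
      FreeSemigroup.lift (f ∘ a) p.1 = FreeSemigroup.lift (f ∘ a) p.2 ∧
        (r : FreeGroup (Fin n)) = posWord p.1 * (posWord p.2)⁻¹ := by
    rintro ⟨r, hr⟩
    obtain ⟨u, v, hu, hv, huv, hr'⟩ := hE1 hr
    obtain ⟨x, rfl⟩ := exists_word u hu
    obtain ⟨y, rfl⟩ := exists_word v hv
    exact ⟨(x, y), by rw [lift_eq_val, lift_eq_val]; exact huv,
      by rw [posWord_eq, posWord_eq]; exact hr'⟩
  choose p hp1 hp2 using hchoice
  haveI : Finite E := hEf
  have hEρ : E ⊆ relators (Set.range p) := fun r hr => ⟨p ⟨r, hr⟩, ⟨_, rfl⟩, hp2 ⟨r, hr⟩⟩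
  refine ⟨n, ι, Set.range p, Set.finite_range p, ?_, ?_⟩
  · have : Set.range ι = ((↑) : Subsemigroup.closure T → M) ⁻¹' T := by
      ext x
      constructor
      · rintro ⟨i, rfl⟩; exact (e.symm i).2
      · intro hx
        exact ⟨e ⟨x, hx⟩, Subtype.ext (by simp [ι, a])⟩
    rw [this]
    exact Subsemigroup.closure_closure_coe_preimage
  · intro x y
    constructor
    · intro hxy
      have h1 : FreeSemigroup.lift (f ∘ a) x = FreeSemigroup.lift (f ∘ a) y := by
        rw [← hι, ← hι, hxy]
      have h2 : posWord x * (posWord y)⁻¹ ∈ normalClosure (relators (Set.range p)) := by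
        refine (normalClosure_mono hEρ) (hE2 ⟨x.head :: x.tail, y.head :: y.tail,
          by simp, by simp, ?_, ?_⟩)
        · rw [← lift_eq_val, ← lift_eq_val, h1]
        · rw [posWord_eq, posWord_eq]
      have h3 : PresentedGroup.mk (relators (Set.range p)) (posWord x * (posWord y)⁻¹) = 1 :=
        (QuotientGroup.eq_one_iff _).2 h2
      rw [map_mul, map_inv] at h3
      exact mul_inv_eq_one.1 h3
    · intro hxy
      have h3 : PresentedGroup.mk (relators (Set.range p)) (posWord x * (posWord y)⁻¹) = 1 := by
        rw [map_mul, map_inv]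
        exact mul_inv_eq_one.2 hxy
      have h2 : posWord x * (posWord y)⁻¹ ∈ normalClosure (relators (Set.range p)) :=
        (QuotientGroup.eq_one_iff _).1 h3
      have h4 : normalClosure (relators (Set.range p)) ≤ (FreeGroup.lift (f ∘ a)).ker := by
        apply normalClosure_le_normal
        rintro r ⟨_, ⟨r', rfl⟩, rfl⟩
        have := hp1 r'
        rw [lift_eq_val, lift_eq_val] at this
        show FreeGroup.lift (f ∘ a) (posWord (p r').1 * (posWord (p r').2)⁻¹) = 1
        rw [posWord_eq, posWord_eq]
        simp only [map_mul, map_inv, lift_pos]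
        rw [this, mul_inv_cancel]
      have h5 : FreeGroup.lift (f ∘ a) (posWord x * (posWord y)⁻¹) = 1 := h4 h2
      rw [posWord_eq, posWord_eq] at h5
      simp only [map_mul, map_inv, lift_pos] at h5
      apply Subtype.ext
      apply hf
      rw [hι, hι, lift_eq_val, lift_eq_val]
      exact mul_inv_eq_one.1 h5

variable (X : Type u) (G : Type v) [Group G]

/-- The auxiliary group. -/
abbrev GX := G × Multiplicative (FreeAbelianGroup X)

/-- The embedding into the one letter case. -/
noncomputable def psi : Coprod (FreeMonoid X) G →* PP (GX X G) :=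
  Coprod.lift
    (FreeMonoid.lift (fun x => zz * Coprod.inr ((1, Multiplicative.ofAdd (FreeAbelianGroup.of x)) : GX X G)))
    (Coprod.inr.comp (MonoidHom.inl _ _))

open Classical in
/-- Decoding a letter. -/
noncomputable def dcd (α : Multiplicative (FreeAbelianGroup X)) : FreeMonoid X :=
  if h : ∃ x, α = Multiplicative.ofAdd (FreeAbelianGroup.of x) then FreeMonoid.of h.choose else 1

theorem dcd_of (x : X) : dcd X (Multiplicative.ofAdd (FreeAbelianGroup.of x)) = FreeMonoid.of x := by
  have h : ∃ y, Multiplicative.ofAdd (FreeAbelianGroup.of x) =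
      Multiplicative.ofAdd (FreeAbelianGroup.of y) := ⟨x, rfl⟩
  unfold dcd
  rw [dif_pos h]
  congr 1
  exact (FreeAbelianGroup.of_injective (Multiplicative.ofAdd.injective h.choose_spec)).symm

/-- Rebuilding an element. -/
noncomputable def bk : List (GX X G) → Coprod (FreeMonoid X) G
  | [] => 1
  | c :: l => Coprod.inl (dcd X c.2) * Coprod.inr c.1 * bk l

theorem psi_spec (p : Coprod (FreeMonoid X) G) :
    ∃ (g : G) (t : List (GX X G)), nf (psi X G p) = (g, 1) :: t ∧ p = Coprod.inr g * bk X G t := by
  induction p using Coprod.induction_on' with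
  | one => exact ⟨1, [], by rw [map_one]; exact evL_one _, by simp [bk]⟩
  | inl_mul w q hq =>
    induction w using FreeMonoid.recOn with
    | one => simpa using hq
    | of_mul x w ih =>
      obtain ⟨g, t, h1, h2⟩ := ih
      refine ⟨1, (g, Multiplicative.ofAdd (FreeAbelianGroup.of x)) :: t, ?_, ?_⟩
      · rw [map_mul Coprod.inl, mul_assoc, map_mul]
        have h3 : psi X G (Coprod.inl (FreeMonoid.of x)) =
            zz * Coprod.inr ((1, Multiplicative.ofAdd (FreeAbelianGroup.of x)) : GX X G) := by
          simp [psi]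
        unfold nf at *
        rw [h3, evL_mul, evL_mul, h1, evL_inr]
        unfold zz
        rw [evL_inl_of]
        simp
        rfl
      · rw [map_mul Coprod.inl, mul_assoc, h2]
        simp [bk, dcd_of, mul_assoc]
  | inr_mul m q hq =>
    obtain ⟨g, t, h1, h2⟩ := hq
    refine ⟨m * g, t, ?_, ?_⟩
    · have h3 : psi X G (Coprod.inr m) = Coprod.inr ((m, 1) : GX X G) := by simp [psi]
      unfold nf at *
      rw [map_mul, h3, evL_mul, h1, evL_inr]
      simp
    · rw [h2, map_mul, mul_assoc]

theorem psi_injective : Function.Injective (psi X G) := by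
  intro p q h
  obtain ⟨g, t, h1, h2⟩ := psi_spec X G p
  obtain ⟨g', t', h3, h4⟩ := psi_spec X G q
  rw [h, h3] at h1
  obtain ⟨h5, h6⟩ := List.cons.inj h1
  rw [h2, h4, h6, (Prod.mk.inj h5).1]

/-- The embedding into a group. -/
noncomputable def embX := (embG (GX X G)).comp (psi X G)

theorem embX_injective : Function.Injective (embX X G) := embG_injective.comp (psi_injective X G)

theorem coherent (hG : Group.IsVirtuallyNilpotent G) : MalcevCoherent (Coprod (FreeMonoid X) G) := by
  apply malcev_of_emb (embX X G) (embX_injective X G)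
  intro n a
  exact finRel (psi X G ∘ a) (vn_prod hG (Group.IsNilpotent.isVirtuallyNilpotent inferInstance))

end Pool.Agent.H814Z.Mal
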